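import Pool.Agent.Helper96.FK.Real

/-!
# Commuting elements and centralizers in the evolution Lie algebra: constant separant

`br f g` is the bracket of the problem, `C(g) = {h : br h g = 0}`. `ConstSep g`: the separant of
`g` is a nonzero constant, that is `g = c u_m + (polynomial in u_0, ..., u_{m-1})`, `c ≠ 0`.

The theorem is the assertion of Q1 for all pairs `f, g` one of which has constant separant.
If moreover every nonzero real combination of `f` and `g` has order at least three, then even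
`C(f) ∩ C(g)` is infinite-dimensional.
-/

set_option autoImplicit false
open MvPolynomial

namespace Pool.Agent.Results.MP_ff793d_mp.ConstantSeparant

/-- The bracket `[f, g] = ∑ (f_i d^i g - g_i d^i f)` of the problem. -/
noncomputable def br (f g : MvPolynomial ℕ ℝ) : MvPolynomial ℕ ℝ :=
  ∑ i ∈ f.vars ∪ g.vars,
    (pderiv i f * (⇑(mkDerivation ℝ (fun j : ℕ => (X (j + 1) : MvPolynomial ℕ ℝ))))^[i] g -
      pderiv i g * (⇑(mkDerivation ℝ (fun j : ℕ => (X (j + 1) : MvPolynomial ℕ ℝ))))^[i] f)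

/-- The separant of `g` is a nonzero constant: `g = c u_m + (polynomial in u_0, ..., u_{m-1})`. -/
def ConstSep (g : MvPolynomial ℕ ℝ) : Prop :=
  ∃ (m : ℕ) (c : ℝ), c ≠ 0 ∧ pderiv m g = C c ∧ ∀ j : ℕ, m < j → pderiv j g = 0

open Pool.Agent.Helper96

theorem br_eq (f g : MvPolynomial ℕ ℝ) : br f g = FK.br g f :=
  FK.bracket_eq f g

theorem not_finite' (g : MvPolynomial ℕ ℝ) (P : MvPolynomial ℕ ℝ → Prop)
    (h : ∀ K : ℕ, ∃ e, P e ∧ ∃ j, K ≤ j ∧ pderiv j e ≠ 0) :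
    ¬ ∃ S : Finset (MvPolynomial ℕ ℝ), ∀ h : MvPolynomial ℕ ℝ, P h →
      h ∈ Submodule.span ℝ (S : Set (MvPolynomial ℕ ℝ)) := by
  rintro ⟨S, hS⟩
  choose o ho using (FK.exists_ord (R := ℝ))
  obtain ⟨e, he, j, hj, hje⟩ := h (S.sup o + 1)
  have h1 := hS e he
  apply hje
  refine Submodule.span_induction (p := fun x _ => pderiv j x = 0) ?_ (map_zero _) ?_ ?_ h1
  · intro x hx
    have h2 := Finset.le_sup (f := o) hx
    exact ho x j (by omega)
  · intro x y _ _ hx hy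
    rw [map_add, hx, hy, add_zero]
  · intro a x _ hx
    rw [Derivation.map_smul, hx, smul_zero]

theorem sep_symm {f g : MvPolynomial ℕ ℝ} (hc : FK.br g f = 0)
    (hf2 : ∃ k : ℕ, 1 < k ∧ pderiv k f ≠ 0) (hg2 : ∃ m : ℕ, 1 < m ∧ pderiv m g ≠ 0)
    (hg : ConstSep g) : ConstSep f := by
  obtain ⟨m, c, hc0, hm, hmo⟩ := hg
  obtain ⟨m', hm', hg'⟩ := hg2
  have hm2 : 2 ≤ m := by
    by_contra h
    exact hg' (hmo m' (by omega))
  obtain ⟨k, hk, hfo, hfk⟩ := FK.exact_ord hf2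
  obtain ⟨r, hr⟩ := FK.sep_const hm2 (by omega) hmo hm hc0 hfo hc
  refine ⟨k, r, ?_, hr, hfo⟩
  rintro rfl
  rw [C_0] at hr
  exact hfk hr

theorem common (f g : MvPolynomial ℕ ℝ) (hc : br f g = 0)
    (hcomb : ∀ x y : ℝ, (x ≠ 0 ∨ y ≠ 0) →
      ∃ k : ℕ, 2 < k ∧ pderiv k (C x * f + C y * g) ≠ 0)
    (hsep : ConstSep f ∨ ConstSep g) (N : ℕ) :
    ∃ h : MvPolynomial ℕ ℝ, br h f = 0 ∧ br h g = 0 ∧ ∃ j : ℕ, N ≤ j ∧ pderiv j h ≠ 0 := by
  rw [br_eq] at hc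
  have hf2 : ∃ k : ℕ, 1 < k ∧ pderiv k f ≠ 0 := by
    obtain ⟨k, hk, h⟩ := hcomb 1 0 (Or.inl one_ne_zero)
    refine ⟨k, by omega, ?_⟩
    rwa [C_0, C_1, zero_mul, one_mul, add_zero] at h
  have hg2 : ∃ k : ℕ, 1 < k ∧ pderiv k g ≠ 0 := by
    obtain ⟨k, hk, h⟩ := hcomb 0 1 (Or.inr one_ne_zero)
    refine ⟨k, by omega, ?_⟩
    rwa [C_0, C_1, zero_mul, one_mul, zero_add] at h
  have hsep' : ConstSep g := by
    rcases hsep with h | h
    · exact sep_symm (by rw [FK.br_anti, hc, neg_zero]) hg2 hf2 h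
    · exact h
  obtain ⟨m, c, hc0, hm, hmo⟩ := hsep'
  obtain ⟨h, h1, h2, h3⟩ := FK.main_R hc (fun x y hxy ho => by
    obtain ⟨k, hk, h⟩ := hcomb x y hxy
    exact h (ho k hk)) ⟨m, c, hc0, hm, hmo⟩ N
  exact ⟨h, by rw [br_eq]; exact h1, by rw [br_eq]; exact h2, h3⟩

theorem result (f g : MvPolynomial ℕ ℝ) (hc : br f g = 0)
    (hf : f ∉ Submodule.span ℝ ({1, X 1, g} : Set (MvPolynomial ℕ ℝ)))
    (hf2 : ∃ k : ℕ, 1 < k ∧ pderiv k f ≠ 0) (hg2 : ∃ m : ℕ, 1 < m ∧ pderiv m g ≠ 0)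
    (hsep : ConstSep f ∨ ConstSep g) :
    (¬ ∃ S : Finset (MvPolynomial ℕ ℝ), ∀ h : MvPolynomial ℕ ℝ, br h g = 0 →
      h ∈ Submodule.span ℝ (S : Set (MvPolynomial ℕ ℝ))) ∧
    ((∀ x y : ℝ, (x ≠ 0 ∨ y ≠ 0) → ∃ k : ℕ, 2 < k ∧ pderiv k (C x * f + C y * g) ≠ 0) →
      ¬ ∃ S : Finset (MvPolynomial ℕ ℝ), ∀ h : MvPolynomial ℕ ℝ, br h f = 0 → br h g = 0 →
        h ∈ Submodule.span ℝ (S : Set (MvPolynomial ℕ ℝ))) := by
  refine ⟨?_, ?_⟩
  · by_cases hcomb : ∃ x y : ℝ, (x ≠ 0 ∨ y ≠ 0) ∧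
        ∀ k : ℕ, 2 < k → pderiv k (C x * f + C y * g) = 0
    · apply not_finite' g (fun h => br h g = 0)
      intro K
      have hc' : Pool.Agent.Helper90.Evo.ev g f = Pool.Agent.Helper90.Evo.ev f g := by
        have h1 := Pool.Agent.Helper90.Evo.bracket_eq f g
        rw [← sub_eq_zero, ← h1]
        exact hc
      obtain ⟨e, he, j, hj, hje⟩ := Pool.Agent.Helper90.Evo.main_ev f g hc' hf hf2 hg2 hcomb K
      refine ⟨e, ?_, j, by omega, hje⟩
      have h1 := Pool.Agent.Helper90.Evo.bracket_eq e g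
      rw [← he, sub_self] at h1
      exact h1
    · have hcomb' : ∀ x y : ℝ, (x ≠ 0 ∨ y ≠ 0) →
          ∃ k : ℕ, 2 < k ∧ pderiv k (C x * f + C y * g) ≠ 0 := by
        intro x y hxy
        by_contra h
        apply hcomb
        refine ⟨x, y, hxy, fun k hk => ?_⟩
        by_contra h1
        exact h ⟨k, hk, h1⟩
      apply not_finite' g (fun h => br h g = 0)
      intro K
      obtain ⟨h, _, h2, h3⟩ := common f g hc hcomb' hsep K
      exact ⟨h, h2, h3⟩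
  · intro hcomb
    have h1 := not_finite' g (fun h => br h f = 0 ∧ br h g = 0) (by
      intro K
      obtain ⟨h, h1, h2, h3⟩ := common f g hc hcomb hsep K
      exact ⟨h, ⟨h1, h2⟩, h3⟩)
    rintro ⟨S, hS⟩
    exact h1 ⟨S, fun h hh => hS h hh.1 hh.2⟩

end Pool.Agent.Results.MP_ff793d_mp.ConstantSeparant
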