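import Pool.Agent.Helper90.Evo.Final

/-!
# Commuting elements and centralizers in the evolution Lie algebra: the case of order two

`br f g` is the bracket of the problem, `C(g) = {h : br h g = 0}`.

Part 1 is the assertion of Q1 under the additional hypothesis that some nonzero real combination of
`f` and `g` has order at most two; for instance if `f` or `g` has order two.

Part 2: for `g` of order two the following are equivalent: some `f` outside `span {1, u_1, g}`
commutes with `g`; `C(g)` is infinite-dimensional; `g` is in the list `Listed`.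
-/

set_option autoImplicit false
open MvPolynomial

namespace Pool.Agent.Results.MP_ff793d_mp.OrderTwo

open Pool.Agent.Helper90.Evo

/-- The bracket `[f, g] = ∑ (f_i d^i g - g_i d^i f)` of the problem. -/
noncomputable def br (f g : MvPolynomial ℕ ℝ) : MvPolynomial ℕ ℝ :=
  ∑ i ∈ f.vars ∪ g.vars,
    (pderiv i f * (⇑(mkDerivation ℝ (fun j : ℕ => (X (j + 1) : MvPolynomial ℕ ℝ))))^[i] g -
      pderiv i g * (⇑(mkDerivation ℝ (fun j : ℕ => (X (j + 1) : MvPolynomial ℕ ℝ))))^[i] f)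

theorem br_eq_zero (f g : MvPolynomial ℕ ℝ) : br f g = 0 ↔ ev g f = ev f g := by
  rw [br, bracket_eq, sub_eq_zero]

theorem not_finite' (g : MvPolynomial ℕ ℝ)
    (h : ∀ K, ∃ e, ev e g = ev g e ∧ ∃ j, K < j ∧ d j e ≠ 0) :
    ¬ ∃ S : Finset (MvPolynomial ℕ ℝ), ∀ h : MvPolynomial ℕ ℝ, br h g = 0 →
      h ∈ Submodule.span ℝ (S : Set (MvPolynomial ℕ ℝ)) := by
  rintro ⟨S, hS⟩
  apply not_finite g h
  refine ⟨S, fun e he => hS e ?_⟩
  rw [br_eq_zero, ← sub_eq_zero]
  exact he

theorem lin_listed {g : MvPolynomial ℕ ℝ} (hg : Ord 2 g) (hg2 : pderiv 2 g ≠ 0) (h : Lin g) :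
    Listed g := by
  obtain ⟨σ, hσ⟩ := h 2
  obtain ⟨b, hb⟩ := h 1
  obtain ⟨κ, hκ⟩ := h 0
  have hd0 : ∀ (r : ℝ) (j : ℕ), d j (C r : A) = 0 := fun r j => pderiv_C
  have hσ0 : σ ≠ 0 := by
    rintro rfl
    apply hg2
    rw [show pderiv 2 g = d 2 g from rfl, hσ, C_0]
  have h1 : g - C σ * X 2 - C b * X 1 - C κ * X 0 =
      C (constantCoeff (g - C σ * X 2 - C b * X 1 - C κ * X 0)) := by
    apply eq_C_of_d
    intro j
    rw [map_sub, map_sub, map_sub, d_mul, d_mul, d_mul, hd0, hd0, hd0]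
    rcases Nat.lt_or_ge 2 j with h3 | h3
    · rw [hg j h3, pderiv_X_of_ne (by omega), pderiv_X_of_ne (by omega), pderiv_X_of_ne (by omega)]
      ring
    · interval_cases j
      · rw [hκ, pderiv_X_self, pderiv_X_of_ne (by omega), pderiv_X_of_ne (by omega)]
        ring
      · rw [hb, pderiv_X_self, pderiv_X_of_ne (by omega), pderiv_X_of_ne (by omega)]
        ring
      · rw [hσ, pderiv_X_self, pderiv_X_of_ne (by omega), pderiv_X_of_ne (by omega)]
        ring
  generalize constantCoeff (g - C σ * X 2 - C b * X 1 - C κ * X 0) = g0 at h1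
  have h2 : g = C σ * X 2 + C b * X 1 + C κ * X 0 + C g0 := by linear_combination h1
  rw [h2]
  exact Listed.lin σ b κ g0 hσ0

theorem listed_of_comm {f g : MvPolynomial ℕ ℝ} (hg : Ord 2 g) (hg2 : pderiv 2 g ≠ 0)
    (hf : f ∉ Submodule.span ℝ ({1, X 1, g} : Set (MvPolynomial ℕ ℝ))) (hc : ev g f = ev f g) :
    Listed g := by
  have hd0 : ∀ (r : ℝ) (j : ℕ), d j (C r : A) = 0 := fun r j => pderiv_C
  have hmem : ∀ a b c : ℝ, f ≠ C a * X 1 + C b + C c * g := by
    intro a b c h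
    apply hf
    rw [h]
    have e1 : (C a * X 1 : A) = a • X 1 := by rw [smul_eq_C_mul]
    have e2 : (C b : A) = b • 1 := by rw [smul_eq_C_mul, mul_one]
    have e3 : (C c * g : A) = c • g := by rw [smul_eq_C_mul]
    rw [e1, e2, e3]
    refine Submodule.add_mem _ (Submodule.add_mem _ ?_ ?_) ?_
    · exact Submodule.smul_mem _ _ (Submodule.subset_span (by simp))
    · exact Submodule.smul_mem _ _ (Submodule.subset_span (by simp))
    · exact Submodule.smul_mem _ _ (Submodule.subset_span (by simp))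
  by_cases hf2 : Ord 2 f
  · obtain ⟨c, hcc⟩ : ∃ c : ℝ, d 2 f = C c * d 2 g := by
      have h1 := rel_one' (m := 0) hg hg2 hf2 hc
      refine ratio_const (S := d 2 g) (T := d 2 f) hg2 ?_
      intro i
      have h2 := h1 i
      push_cast at h2
      refine mul_left_cancel₀ (two_ne_zero : (2 : A) ≠ 0) ?_
      linear_combination -h2
    have h1 : Ord 1 (f - C c * g) := by
      intro j hj
      rcases Nat.lt_or_ge 2 j with h3 | h3
      · rw [map_sub, d_mul, hf2 j h3, hg j h3, hd0]; ring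
      · obtain rfl : j = 2 := by omega
        rw [map_sub, d_mul, hcc, hd0]; ring
    have h2 : ev (f - C c * g) g = ev g (f - C c * g) := by
      have h3 : f - C c * g = f + C (-c) * g := by rw [C_neg]; ring
      rw [h3, ev_add_left, ev_C_mul_left, map_add, ev_C_mul, hc]
    rcases low_main (m := 0) h1 hg hg2 h2 with ⟨a, b, h3⟩ | ⟨-, h3⟩
    · exact absurd (show f = C a * X 1 + C b + C c * g by linear_combination h3) (hmem a b c)
    · exact lin_listed hg hg2 h3
  · obtain ⟨N, hN⟩ := exists_ord f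
    have key : ∀ n, Ord (n + 2) f → ∃ k, Ord (k + 3) f ∧ d (k + 3) f ≠ 0 := by
      intro n
      induction n with
      | zero => intro h; exact absurd h hf2
      | succ n ih =>
        intro h
        by_cases h0 : d (n + 3) f = 0
        · apply ih
          intro j hj
          rcases Nat.lt_or_ge (n + 3) j with h1 | h1
          · exact h j h1
          · obtain rfl : j = n + 3 := by omega
            exact h0
        · exact ⟨n, h, h0⟩
    obtain ⟨k, hfo, hf0⟩ := key N (hN.mono (by omega))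
    exact Listed.of_symmetry hg hg2 hfo hf0 hc

theorem result :
    (∀ f g : MvPolynomial ℕ ℝ, br f g = 0 →
      f ∉ Submodule.span ℝ ({1, X 1, g} : Set (MvPolynomial ℕ ℝ)) →
      (∃ k : ℕ, 1 < k ∧ pderiv k f ≠ 0) →
      (∃ m : ℕ, 1 < m ∧ pderiv m g ≠ 0) →
      (∃ x y : ℝ, (x ≠ 0 ∨ y ≠ 0) ∧ ∀ k : ℕ, 2 < k → pderiv k (C x * f + C y * g) = 0) →
      ¬ ∃ S : Finset (MvPolynomial ℕ ℝ), ∀ h : MvPolynomial ℕ ℝ, br h g = 0 →
        h ∈ Submodule.span ℝ (S : Set (MvPolynomial ℕ ℝ))) ∧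
    (∀ g : MvPolynomial ℕ ℝ, (∀ k : ℕ, 2 < k → pderiv k g = 0) → pderiv 2 g ≠ 0 →
      ((∃ f : MvPolynomial ℕ ℝ, f ∉ Submodule.span ℝ ({1, X 1, g} : Set (MvPolynomial ℕ ℝ)) ∧
        br f g = 0) ↔ Listed g) ∧
      ((¬ ∃ S : Finset (MvPolynomial ℕ ℝ), ∀ h : MvPolynomial ℕ ℝ, br h g = 0 →
        h ∈ Submodule.span ℝ (S : Set (MvPolynomial ℕ ℝ))) ↔ Listed g)) := by
  refine ⟨?_, ?_⟩
  · intro f g hc hf hf2 hg2 hcomb
    exact not_finite' g (main_ev f g ((br_eq_zero f g).1 hc) hf hf2 hg2 hcomb)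
  · intro g hg hg2
    have hinf : Listed g → ¬ ∃ S : Finset (MvPolynomial ℕ ℝ), ∀ h : MvPolynomial ℕ ℝ,
        br h g = 0 → h ∈ Submodule.span ℝ (S : Set (MvPolynomial ℕ ℝ)) := by
      intro hL
      obtain ⟨H, hH⟩ := hL.hier
      apply not_finite'
      intro K
      obtain ⟨e, he, j, hj, hje⟩ := hH.unb K
      exact ⟨e, hH.cent e he, j, hj, hje⟩
    have hex : (¬ ∃ S : Finset (MvPolynomial ℕ ℝ), ∀ h : MvPolynomial ℕ ℝ, br h g = 0 →
        h ∈ Submodule.span ℝ (S : Set (MvPolynomial ℕ ℝ))) →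
        ∃ f : MvPolynomial ℕ ℝ, f ∉ Submodule.span ℝ ({1, X 1, g} : Set (MvPolynomial ℕ ℝ)) ∧
        br f g = 0 := by
      classical
      intro h
      by_contra hno
      push Not at hno
      apply h
      refine ⟨{1, X 1, g}, fun f hf => ?_⟩
      by_contra h1
      refine hno f ?_ hf
      simpa using h1
    refine ⟨⟨?_, fun hL => hex (hinf hL)⟩, ⟨fun h => ?_, hinf⟩⟩
    · rintro ⟨f, hf, hc⟩
      exact listed_of_comm hg hg2 hf ((br_eq_zero f g).1 hc)
    · obtain ⟨f, hf, hc⟩ := hex h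
      exact listed_of_comm hg hg2 hf ((br_eq_zero f g).1 hc)

end Pool.Agent.Results.MP_ff793d_mp.OrderTwo
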